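import Mathlib

namespace Pool.Agent.Results.MP_c6110c_co.LogBound

open Finset

/-- Monotone maps from a subset of the chain `Fin m` to the chain `Fin t` (`none` = undefined). -/
def MonoPart (m t : ℕ) : Type :=
  {f : Fin m → Option (Fin t) // ∀ x y a b, x ≤ y → f x = some a → f y = some b → a ≤ b}

noncomputable instance (m t : ℕ) : Fintype (MonoPart m t) := by
  unfold MonoPart; exact Fintype.ofFinite _

open scoped Classical in
/-- Fractional local realisers of the chain `Fin m`. -/
def IsRealiser {m t : ℕ} (w : MonoPart m t → ℝ) : Prop :=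
  (∀ f, 0 ≤ w f) ∧ ∀ x y : Fin m, ¬ y ≤ x →
    1 ≤ ∑ f ∈ univ.filter (fun f : MonoPart m t =>
      ∃ a b, f.1 x = some a ∧ f.1 y = some b ∧ a < b), w f

open scoped Classical in
/-- Fractional local `t`-dimension of the chain with `m` elements. -/
noncomputable def fldim (t m : ℕ) : ℝ :=
  sInf {c | ∃ w : MonoPart m t → ℝ, IsRealiser w ∧
    c = ⨆ x : Fin m, ∑ f ∈ univ.filter (fun f : MonoPart m t => f.1 x ≠ none), w f}

noncomputable def g (n : ℕ) : ℝ := (n : ℝ) * Real.log n
noncomputable def φ (x : ℝ) : ℝ := (x + 1) * Real.log (x + 1) - x * Real.log x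
noncomputable def μ (d : ℕ) : ℝ := φ d - φ ((d : ℝ) - 1)

lemma φ_nat (n : ℕ) : φ n = g (n + 1) - g n := by simp [φ, g]

lemma φ_deriv {x : ℝ} (hx : 0 < x) : HasDerivAt φ (Real.log (1 + x⁻¹)) x := by
  have h1 := (Real.hasDerivAt_mul_log (x := x + 1) (by linarith)).comp x
    ((hasDerivAt_id x).add_const 1)
  have h2 := Real.hasDerivAt_mul_log (x := x) hx.ne'
  have h3 := h1.sub h2
  have e : Real.log (1 + x⁻¹) = (Real.log (x + 1) + 1) * 1 - (Real.log x + 1) := by
    rw [show 1 + x⁻¹ = (x + 1) / x by field_simp, Real.log_div (by linarith) hx.ne']; ring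
  rw [e]; exact h3

lemma φ_cont : Continuous φ :=
  (Real.continuous_mul_log.comp (continuous_id.add continuous_const)).sub Real.continuous_mul_log

lemma φ_concave : ConcaveOn ℝ (Set.Ici 0) φ := by
  refine AntitoneOn.concaveOn_of_deriv (convex_Ici 0) φ_cont.continuousOn ?_ ?_
  · rw [interior_Ici]
    exact fun x hx => (φ_deriv hx).differentiableAt.differentiableWithinAt
  · rw [interior_Ici]
    intro x hx y hy hxy
    rw [(φ_deriv hx).deriv, (φ_deriv hy).deriv]
    have hx' : 0 < x := hx
    have hy' : 0 < y := hy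
    exact Real.log_le_log (by positivity) (by gcongr)

lemma φ_mono : MonotoneOn φ (Set.Ici 0) := by
  refine monotoneOn_of_deriv_nonneg (convex_Ici 0) φ_cont.continuousOn ?_ ?_
  · rw [interior_Ici]
    exact fun x hx => (φ_deriv hx).differentiableAt.differentiableWithinAt
  · rw [interior_Ici]
    intro x hx
    rw [(φ_deriv hx).deriv]
    have hx' : 0 < x := hx
    exact Real.log_nonneg (by simp [hx'.le])

lemma μ_nonneg {d : ℕ} (hd : 1 ≤ d) : 0 ≤ μ d := by
  have : (1 : ℝ) ≤ d := by exact_mod_cast hd
  exact sub_nonneg.2 (φ_mono (by simpa using this) (by simp) (by linarith))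

lemma μ_succ {d : ℕ} (hd : 1 ≤ d) : μ (d + 1) ≤ μ d := by
  have h1 : (1 : ℝ) ≤ d := by exact_mod_cast hd
  have := φ_concave.2 (show (d : ℝ) - 1 ∈ Set.Ici (0 : ℝ) by simpa using h1)
    (show (d : ℝ) + 1 ∈ Set.Ici (0 : ℝ) by simp only [Set.mem_Ici]; linarith)
    (show (0 : ℝ) ≤ 1 / 2 by norm_num) (show (0 : ℝ) ≤ 1 / 2 by norm_num) (by norm_num)
  simp only [smul_eq_mul] at this
  rw [show 1 / 2 * ((d : ℝ) - 1) + 1 / 2 * (d + 1) = d by ring] at this
  simp only [μ]; push_cast
  rw [add_sub_cancel_right]; linarith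

lemma μ_anti {d e : ℕ} (hd : 1 ≤ d) (h : d ≤ e) : μ e ≤ μ d := by
  induction e, h using Nat.le_induction with
  | base => exact le_rfl
  | succ e he ih => exact (μ_succ (by omega)).trans ih

lemma sum_le (a : ℕ) (D : Finset ℕ) (hD : ∀ d ∈ D, a + 1 ≤ d) :
    ∑ d ∈ D, μ d ≤ φ (a + D.card : ℕ) - φ a := by
  induction D using Finset.induction_on_max with
  | empty => simp
  | insert x s hx ih =>
    have hxs : x ∉ s := fun h => lt_irrefl _ (hx x h)
    rw [sum_insert hxs, card_insert_of_notMem hxs]
    have h1 := ih fun d hd => hD d (mem_insert_of_mem hd)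
    have h2 : s.card ≤ x - (a + 1) := by
      have : s ⊆ Ico (a + 1) x := fun d hd =>
        mem_Ico.2 ⟨hD d (mem_insert_of_mem hd), hx d hd⟩
      simpa using card_le_card this
    have h3 := hD x (mem_insert_self _ _)
    have h4 := μ_anti (d := a + (s.card + 1)) (e := x) (by omega) (by omega)
    have h5 : μ (a + (s.card + 1)) = φ (a + (s.card + 1) : ℕ) - φ (a + s.card : ℕ) := by
      simp only [μ]; push_cast; congr 2; ring
    linarith

lemma sep_le {t : ℕ} (c : ℕ → Fin t) (S : Finset ℕ)
    (hc : ∀ x ∈ S, ∀ y ∈ S, x ≤ y → c x ≤ c y) :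
    ∑ y ∈ S, ∑ x ∈ S.filter (fun x => c x < c y), μ (y - x) ≤
      g S.card - ∑ k, g (S.filter (fun x => c x = k)).card := by
  induction S using Finset.induction_on_max with
  | empty => simp [g]
  | insert y s hy ih =>
    have hys : y ∉ s := fun h => lt_irrefl _ (hy y h)
    have h1 := ih fun a ha b hb => hc a (mem_insert_of_mem ha) b (mem_insert_of_mem hb)
    have hle : ∀ x ∈ s, c x ≤ c y := fun x hx =>
      hc x (mem_insert_of_mem hx) y (mem_insert_self _ _) (hy x hx).le
    rw [sum_insert hys, card_insert_of_notMem hys]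
    have e1 : ∑ z ∈ s, ∑ x ∈ (insert y s).filter (fun x => c x < c z), μ (z - x) =
        ∑ z ∈ s, ∑ x ∈ s.filter (fun x => c x < c z), μ (z - x) := by
      refine sum_congr rfl fun z hz => ?_
      rw [filter_insert, if_neg (not_lt.2 (hle z hz))]
    have e2 : (insert y s).filter (fun x => c x < c y) = s.filter (fun x => c x < c y) := by
      rw [filter_insert, if_neg (lt_irrefl _)]
    obtain ⟨a, ha⟩ : ∃ a, a = (s.filter (fun x => c x = c y)).card := ⟨_, rfl⟩
    have e3 : ∑ k, g ((insert y s).filter (fun x => c x = k)).card =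
        ∑ k, g (s.filter (fun x => c x = k)).card + φ a := by
      rw [← add_sum_erase _ _ (mem_univ (c y)), ← add_sum_erase _ _ (mem_univ (c y)),
        filter_insert, if_pos rfl, card_insert_of_notMem (fun h => hys (mem_filter.1 h).1),
        ← ha, φ_nat]
      have : ∑ k ∈ univ.erase (c y), g ((insert y s).filter (fun x => c x = k)).card =
          ∑ k ∈ univ.erase (c y), g (s.filter (fun x => c x = k)).card :=
        sum_congr rfl fun k hk => by rw [filter_insert, if_neg (mem_erase.1 hk).1.symm]
      rw [this]; ring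
    have e4 : a + (s.filter (fun x => c x < c y)).card = s.card := by
      rw [ha, ← card_union_of_disjoint (disjoint_filter.2 fun x _ h h' => h'.ne h)]
      congr 1
      ext x
      simp only [mem_union, mem_filter]
      exact ⟨fun h => h.elim And.left And.left, fun h => (hle x h).eq_or_lt.imp
        (fun e => ⟨h, e⟩) (fun e => ⟨h, e⟩)⟩
    have inj : Set.InjOn (fun x => y - x) (s.filter (fun x => c x < c y)) := by
      intro u hu v hv huv
      have := hy u (mem_filter.1 hu).1
      have := hy v (mem_filter.1 hv).1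
      simp only at huv; omega
    have h2 := sum_le a ((s.filter (fun x => c x < c y)).image fun x => y - x) (by
      intro d hd
      obtain ⟨x, hx, rfl⟩ := mem_image.1 hd
      obtain ⟨hx1, hx2⟩ := mem_filter.1 hx
      have : s.filter (fun z => c z = c y) ⊆ Ioo x y := by
        intro z hz
        obtain ⟨hz1, hz2⟩ := mem_filter.1 hz
        refine mem_Ioo.2 ⟨not_le.1 fun hzx => ?_, hy z hz1⟩
        have := hc z (mem_insert_of_mem hz1) x (mem_insert_of_mem hx1) hzx
        rw [hz2] at this
        exact absurd hx2 (not_lt.2 this)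
      have := card_le_card this
      have := hy x hx1
      simp only [Nat.card_Ioo] at *
      omega)
    rw [sum_image inj, card_image_of_injOn inj, e4, φ_nat] at h2
    rw [e1, e2, e3]
    linarith

lemma entropy {t : ℕ} (ht : 1 ≤ t) (a : Fin t → ℕ) :
    g (∑ k, a k) - ∑ k, g (a k) ≤ (∑ k, a k : ℕ) * Real.log t := by
  have t0 : (0 : ℝ) < t := by exact_mod_cast ht
  have h := Real.convexOn_mul_log.map_sum_le (t := univ) (w := fun _ : Fin t => (t : ℝ)⁻¹)
    (p := fun k => (a k : ℝ)) (fun _ _ => by positivity) (by simp; field_simp)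
    (fun _ _ => by simp)
  simp only [smul_eq_mul, ← mul_sum] at h
  obtain ⟨n, hn⟩ : ∃ n : ℕ, n = ∑ k, a k := ⟨_, rfl⟩
  have e : ∑ k, (a k : ℝ) = n := by rw [hn]; push_cast; rfl
  rw [e] at h
  rw [← hn]
  simp only [g]
  rcases Nat.eq_zero_or_pos n with h0 | h0
  · subst h0
    simp only [Nat.cast_zero, mul_zero, zero_mul] at h ⊢
    have := (mul_nonneg_iff_of_pos_left (inv_pos.2 t0)).1 h
    linarith
  · have n0 : (0 : ℝ) < n := by exact_mod_cast h0
    rw [Real.log_mul (by positivity) n0.ne', Real.log_inv, mul_assoc] at h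
    have := le_of_mul_le_mul_left h (inv_pos.2 t0)
    linarith

lemma total (m : ℕ) : ∑ y ∈ range m, ∑ x ∈ range y, μ (y - x) = g m := by
  have h : ∀ y, ∑ x ∈ range y, μ (y - x) = φ y := by
    intro y
    have : ∀ n : ℕ, ∑ i ∈ range n, μ (i + 1) = φ n := by
      intro n
      induction n with
      | zero => simp [φ]
      | succ n ih => rw [sum_range_succ, ih]; simp [μ]
    rw [← this, ← sum_range_reflect]
    exact sum_congr rfl fun i hi => by rw [mem_range] at hi; congr 1; omega
  simp only [h, φ_nat]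
  rw [sum_range_sub g]; simp [g]

open scoped Classical in
lemma one_f {m t : ℕ} (ht : 1 ≤ t) (f : MonoPart m t) :
    ∑ y : Fin m, ∑ x : Fin m, (if ∃ a b, f.1 x = some a ∧ f.1 y = some b ∧ a < b
      then μ (y - x) else 0) ≤
      ((univ.filter fun x => f.1 x ≠ none).card : ℝ) * Real.log t := by
  let c : ℕ → Fin t := fun n => if h : n < m then (f.1 ⟨n, h⟩).getD ⟨0, ht⟩ else ⟨0, ht⟩
  have hc : ∀ (x : Fin m) a, f.1 x = some a → c x = a := fun x a h => by
    simp [c, h]
  let S := (univ.filter fun x => f.1 x ≠ none).map Fin.valEmbedding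
  have h1 := sep_le c S (by
    intro x hx y hy hxy
    obtain ⟨x, hx', rfl⟩ := mem_map.1 hx
    obtain ⟨y, hy', rfl⟩ := mem_map.1 hy
    obtain ⟨a, ha⟩ := Option.ne_none_iff_exists'.1 (mem_filter.1 hx').2
    obtain ⟨b, hb⟩ := Option.ne_none_iff_exists'.1 (mem_filter.1 hy').2
    simp only [Fin.valEmbedding_apply] at hxy ⊢
    rw [hc x a ha, hc y b hb]
    exact f.2 x y a b hxy ha hb)
  have h2 := entropy ht fun k => (S.filter (fun x => c x = k)).card
  rw [← card_eq_sum_card_fiberwise (fun x _ => mem_univ (c x))] at h2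
  have h3 : S.card = (univ.filter fun x => f.1 x ≠ none).card := card_map _
  rw [← h3]
  refine le_trans (le_of_eq ?_) (h1.trans h2)
  simp only [S, sum_map, filter_map, sum_filter, Fin.valEmbedding_apply, Function.comp]
  refine sum_congr rfl fun y _ => ?_
  rcases hy : f.1 y with _ | b
  · simp
  · simp only [ne_eq, reduceCtorEq, not_false_eq_true, if_true]
    refine sum_congr rfl fun x _ => ?_
    rcases hx : f.1 x with _ | a
    · simp
    · simp [hc x a hx, hc y b hy]

theorem result (t m : ℕ) (ht : 2 ≤ t) (hm : 1 ≤ m) : Real.logb t m ≤ fldim t m := by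
  classical
  have lt : 0 < Real.log t := Real.log_pos (by exact_mod_cast ht)
  have m0 : (0 : ℝ) < m := by exact_mod_cast hm
  refine le_csInf ⟨_, fun _ => 1, ⟨fun _ => zero_le_one, fun x y hxy => ?_⟩, rfl⟩ ?_
  · rw [sum_const, nsmul_eq_mul, mul_one, Nat.one_le_cast, one_le_card]
    have hne : y ≠ x := fun e => hxy e.le
    refine ⟨⟨fun z => if z = x then some ⟨0, by omega⟩ else if z = y then some ⟨1, by omega⟩
      else none, ?_⟩, ?_⟩
    · intro u v a b huv hu hv
      by_cases h1 : u = x
      · simp only [h1, if_true, Option.some.injEq] at hu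
        rw [← hu]; exact Fin.mk_le_mk.2 (Nat.zero_le _)
      · by_cases h2 : u = y
        · have h3 : v ≠ x := fun e => hxy (by rw [← h2, ← e]; exact huv)
          simp only [h2, hne, h3, if_true, if_false, Option.some.injEq] at hu hv
          split_ifs at hv
          rw [← hu, ← Option.some.inj hv]
        · simp [h1, h2] at hu
    · simp only [mem_filter, mem_univ, true_and]
      exact ⟨⟨0, by omega⟩, ⟨1, by omega⟩, by simp, by simp [hne], by simp⟩
  · rintro c ⟨w, ⟨hw0, hw1⟩, rfl⟩
    obtain ⟨c, hc⟩ : ∃ c, c = ⨆ x : Fin m,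
      ∑ f ∈ univ.filter (fun f : MonoPart m t => f.1 x ≠ none), w f := ⟨_, rfl⟩
    rw [← hc]
    have hl : ∀ x, ∑ f ∈ univ.filter (fun f : MonoPart m t => f.1 x ≠ none), w f ≤ c :=
      fun x => hc ▸ le_ciSup (f := fun x : Fin m =>
        ∑ f ∈ univ.filter (fun f : MonoPart m t => f.1 x ≠ none), w f) (Finite.bddAbove_range _) x
    have a1 : g m ≤ ∑ y : Fin m, ∑ x : Fin m, ∑ f : MonoPart m t, w f *
        (if ∃ a b, f.1 x = some a ∧ f.1 y = some b ∧ a < b then μ (y - x) else 0) := by
      rw [← total, ← Fin.sum_univ_eq_sum_range (fun y => ∑ x ∈ range y, μ (y - x))]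
      refine sum_le_sum fun y _ => ?_
      have : ∑ x ∈ range y, μ (y - x) = ∑ x : Fin m, if x < y then μ (y - x) else 0 := by
        rw [show (∑ x : Fin m, if x < y then μ (y - x) else 0) =
          ∑ x ∈ range m, if x < y.val then μ (y - x) else 0 from
          Fin.sum_univ_eq_sum_range (fun x => if x < y.val then μ (y - x) else 0) m, ← sum_filter]
        congr 1
        ext x
        simp only [mem_range, mem_filter]
        have := y.2
        omega
      rw [this]
      refine sum_le_sum fun x _ => ?_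
      simp only [mul_ite, mul_zero, ← sum_filter, ← sum_mul]
      split_ifs with h
      · exact le_mul_of_one_le_left (μ_nonneg (by have : x.val < y.val := h; omega))
          (hw1 x y (not_le.2 h))
      · rw [filter_false_of_mem]
        · simp
        · rintro f - ⟨a, b, ha, hb, hab⟩
          exact absurd (f.2 y x b a (not_lt.1 h) hb ha) (not_le.2 hab)
    have a2 : ∑ y : Fin m, ∑ x : Fin m, ∑ f : MonoPart m t, w f *
        (if ∃ a b, f.1 x = some a ∧ f.1 y = some b ∧ a < b then μ (y - x) else 0) ≤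
        ∑ f : MonoPart m t, w f * (((univ.filter fun x => f.1 x ≠ none).card : ℝ) * Real.log t) := by
      rw [sum_congr rfl fun y _ => sum_comm, sum_comm]
      refine sum_le_sum fun f _ => ?_
      simp only [← mul_sum]
      exact mul_le_mul_of_nonneg_left (one_f (by omega) f) (hw0 f)
    have a3 : ∑ f : MonoPart m t, w f * ((univ.filter fun x => f.1 x ≠ none).card : ℝ) ≤ m * c := by
      calc _ = ∑ x : Fin m, ∑ f ∈ univ.filter (fun f : MonoPart m t => f.1 x ≠ none), w f := by
            simp only [sum_filter, card_filter, Nat.cast_sum, mul_sum]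
            rw [sum_comm]
            exact sum_congr rfl fun x _ => sum_congr rfl fun f _ => by split_ifs <;> simp
        _ ≤ ∑ _x : Fin m, c := sum_le_sum fun x _ => hl x
        _ = m * c := by simp
    simp only [← mul_assoc, ← sum_mul] at a2
    have a4 := (a1.trans a2).trans (mul_le_mul_of_nonneg_right a3 lt.le)
    rw [Real.logb, div_le_iff₀ lt]
    rw [g, mul_assoc] at a4
    exact le_of_mul_le_mul_left a4 m0

end Pool.Agent.Results.MP_c6110c_co.LogBound
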